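import Pool.Agent.H506Z.TP10

/-!
A tensor product action with the tracial Rokhlin property whose first factor does not have it.

`A = C*_r(F(S) ⋊ ℤ)`, where `ℤ` permutes the letters `S` in cycles of lengths `1, 1, 3, 9, 27, …`,
with the order two automorphism dual to `F(S) ⋊ ℤ → ℤ → ℤ/2`; `B` is the CAR algebra (a twisted
group algebra of `⊕ (ℤ/2)²`) with a dual action of `ℤ/2`.  The unitaries `z ^ (3 ^ n)` are
asymptotically central and odd, so `z ⊗ W* + z* ⊗ W` (`W` a matrix unit far out in `B`) is an odd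
symmetry and the product action has Rokhlin towers.  In `A` a spectral gap forces every projection
almost commuting with the two fixed letters to have trace near `0` or `1`.
-/

set_option autoImplicit false

namespace Pool.Agent.Results.MP_eaab15_an.ACounter

open Pool.Agent.H506Z.TPS

theorem result :
    ∃ (A B C : Type) (_ : CStarAlgebra A) (_ : CStarAlgebra B) (_ : CStarAlgebra C) (t : A → B → C)
      (α : ℤˣ → A → A) (β : ℤˣ → B → B) (γ : ℤˣ × ℤˣ → C → C),
      IsSimple A ∧ IsSimple B ∧ IsMinTensor t ∧ IsStablyFinite C ∧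
      IsAction α ∧ IsAction β ∧ IsAction γ ∧ (∀ g h a b, γ (g, h) (t a b) = t (α g a) (β h b)) ∧
      TracialRokhlin γ ∧ ¬ TracialRokhlin α := by
  obtain ⟨A, B, C, i1, i2, i3, t, α, β, γ, h1, h2, h3, h4, h5, h6, h7, h8, r1, r2, r3, r4⟩ := main
  exact ⟨A, B, C, i1, i2, i3, t, α, β, γ, h1, h2, h3, h4, h5, h6, h7, h8, r2, r4⟩

end Pool.Agent.Results.MP_eaab15_an.ACounter
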